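import Pool.Agent.Helper54.S4.All

open Pool.Agent.Helper54.SP

/-- For every fixed dimension `d ≥ 4`, deciding whether a list of `d`-element sets is the facet
list of a simplicial `d`-polytope is `∃ℝ`-hard: every language which reduces in polynomial time
to the existential theory of the reals reduces in polynomial time to `SPR d`. -/
theorem Pool.Agent.Results.MP_308581_lc.EveryDimension.result (d : ℕ) (hd : 4 ≤ d)
    (A : Set (List Bool)) (hA : PolyRed A ETRL) : PolyRed A (SPR d) := by
  rcases Nat.eq_or_lt_of_le hd with h | h
  · subst h
    exact Pool.Agent.Helper54.S4.s4_MAIN4 A hA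
  · exact all_MAIN d h A hA
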